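import Pool.Agent.H992.BE.Defs
import Pool.Graph.R_pool_sql_team_seeded_5cf16337.K3h40.EC.M

/-!
# BE10: local measures: probability, integrals, mass bounds
-/

set_option autoImplicit false
open MeasureTheory Filter Topology Complex ProbabilityTheory
open scoped ContDiff ENNReal NNReal BoundedContinuousFunction

namespace Pool.Agent.H734.BE

open Pool.Agent.H992.BE
open Pool.Agent.K3h40.EC.Loc (cutWave localWave IsCutoff IsLocalLimit)
open Pool.Agent.K3h40.EC (cut loc Cutf cut_cont cut_cont1 loc_apply loc_cont in_Ω infD_pos)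

theorem cne {Ω : Set ℂ} (h : volume Ω ≠ ⊤) : Ωᶜ.Nonempty := by
  by_contra hn
  rw [Set.not_nonempty_iff_eq_empty, Set.compl_empty_iff] at hn
  apply h
  rw [hn]
  exact measure_univ_of_isAddLeftInvariant volume

theorem cutf {χ : ℝ → ℝ} (h : IsCutoff χ) : Cutf χ := ⟨h.cont, h.one, h.zero⟩

theorem cont_ch {k : ℕ} (w : Fin k → ℂ) (t : Fin k → ℝ) : Continuous (ch w t) := by
  unfold ch
  fun_prop

theorem regP : S_RegP := by
  intro _ _ Ω χ lam u hχ h n
  have hne := cne h.area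
  obtain ⟨C, hC⟩ := h.bounded n
  have hc : ContinuousOn (localWave Ω χ (lam n) (u n)) Ω :=
    loc_cont h.isOpen hne (cutf hχ) (h.pos n) (h.smooth n).continuousOn hC
  have hae : AEMeasurable (localWave Ω χ (lam n) (u n)) (volume.restrict Ω) :=
    hc.aemeasurable h.isOpen.measurableSet
  have hpos : volume Ω ≠ 0 := (h.isOpen.measure_pos volume h.nonempty).ne'
  have hint : ∀ F : C(ℂ, ℝ) → ℂ, Continuous F →
      ∫ f, F f ∂(locMeas Ω χ (lam n) (u n)) =
        (∫ z₀ in Ω, F (localWave Ω χ (lam n) (u n) z₀)) / ((volume Ω).toReal : ℂ) := by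
    intro F hF
    unfold locMeas
    rw [integral_smul_measure, integral_map hae hF.aestronglyMeasurable, ENNReal.toReal_inv,
      Complex.real_smul, Complex.ofReal_inv, div_eq_inv_mul]
  refine ⟨hc, ?_, ?_, ?_, ?_⟩
  · constructor
    unfold locMeas
    rw [Measure.smul_apply, Measure.map_apply_of_aemeasurable hae MeasurableSet.univ,
      Set.preimage_univ, Measure.restrict_apply_univ, smul_eq_mul,
      ENNReal.inv_mul_cancel hpos h.area]
  · intro F hF
    unfold locMeas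
    rw [lintegral_smul_measure, lintegral_map' hF.aemeasurable hae, smul_eq_mul]
  · intro k w t
    exact hint _ (cont_ch w t)
  · intro G hG _
    unfold locMeas localMean
    rw [integral_smul_measure, integral_map hae hG.aestronglyMeasurable, ENNReal.toReal_inv,
      smul_eq_mul, div_eq_inv_mul]

/-- the cut off is bounded -/
theorem chi_bd {χ : ℝ → ℝ} (h : IsCutoff χ) : ∃ M : ℝ, ∀ r, 0 ≤ r → |χ r| ≤ M := by
  obtain ⟨M, hM⟩ := (isCompact_Icc (a := (0 : ℝ)) (b := 1)).exists_bound_of_continuousOn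
    h.cont.continuousOn
  refine ⟨M, fun r hr => ?_⟩
  by_cases h1 : r ≤ 1
  · exact hM r ⟨hr, h1⟩
  · push Not at h1
    rw [h.zero r h1.le, abs_zero]
    exact (norm_nonneg _).trans (hM 0 ⟨le_rfl, zero_le_one⟩)

/-- the square of the function, extended by zero -/
noncomputable def sqf (Ω : Set ℂ) (u : ℂ → ℝ) : ℂ → ℝ≥0∞ := Ω.indicator fun z => ‖u z‖ₑ ^ 2

theorem sqf_meas {Ω : Set ℂ} {u : ℂ → ℝ} (hΩ : IsOpen Ω) (hu : ContinuousOn u Ω) :
    Measurable (sqf Ω u) := by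
  classical
  unfold sqf
  rw [← Set.piecewise_eq_indicator]
  refine ContinuousOn.measurable_piecewise ?_ continuousOn_const hΩ.measurableSet
  exact (ENNReal.continuous_pow 2).comp_continuousOn (continuous_enorm.comp_continuousOn hu)

theorem cut_le {Ω : Set ℂ} {χ : ℝ → ℝ} {lam : ℝ} {u : ℂ → ℝ} {M : ℝ} (hΩ : IsOpen Ω)
    (hne : Ωᶜ.Nonempty) (hχ : IsCutoff χ) (hl : 0 < lam) (hM : ∀ r, 0 ≤ r → |χ r| ≤ M)
    {z₀ : ℂ} (hz : z₀ ∈ Ω) (v : ℂ) :
    ‖cutWave Ω χ lam u z₀ v‖ₑ ^ 2 ≤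
      ENNReal.ofReal M ^ 2 * sqf Ω u (z₀ + ((1 / √lam : ℝ) : ℂ) * v) := by
  unfold cutWave
  have hd := infD_pos hΩ hne hz
  by_cases h : ‖v‖ / (√lam * Metric.infDist z₀ Ωᶜ) < 1
  · unfold sqf
    rw [Set.indicator_of_mem (in_Ω hl h hd), enorm_mul, mul_pow, mul_comm]
    refine mul_le_mul_left (pow_le_pow_left₀ (zero_le) ?_ 2) _
    rw [Real.enorm_eq_ofReal_abs]
    exact ENNReal.ofReal_le_ofReal (hM _ (by positivity))
  · push Not at h
    rw [hχ.zero _ h, mul_zero, enorm_zero]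
    simp

theorem lint_sqf {Ω : Set ℂ} {u : ℂ → ℝ} (hΩ : IsOpen Ω) (hf : volume Ω ≠ ⊤)
    (hu : ContinuousOn u Ω) {B C : ℝ} (hB : ∀ z ∈ Ω, |u z| ≤ B) (hC : ∫ z in Ω, u z ^ 2 ≤ C) :
    ∫⁻ z, sqf Ω u z ≤ ENNReal.ofReal C := by
  unfold sqf
  rw [lintegral_indicator hΩ.measurableSet]
  have h1 : ∀ z, ‖u z‖ₑ ^ 2 = ENNReal.ofReal (u z ^ 2) := by
    intro z
    rw [Real.enorm_eq_ofReal_abs, ← ENNReal.ofReal_pow (abs_nonneg _), sq_abs]
  simp_rw [h1]
  have hint : IntegrableOn (fun z => u z ^ 2) Ω := by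
    refine IntegrableOn.of_bound hf.lt_top
      ((hu.pow 2).aestronglyMeasurable hΩ.measurableSet) (B ^ 2) ?_
    filter_upwards [ae_restrict_mem hΩ.measurableSet] with z hz
    rw [norm_pow, Real.norm_eq_abs]
    exact pow_le_pow_left₀ (abs_nonneg _) (hB z hz) 2
  rw [← ofReal_integral_eq_lintegral_ofReal hint (ae_of_all _ fun z => sq_nonneg _)]
  exact ENNReal.ofReal_le_ofReal hC

theorem enorm_le_one_add (x : ℝ) : ‖x‖ₑ ≤ 1 + ‖x‖ₑ ^ 2 := by
  rw [Real.enorm_eq_ofReal_abs, ← ENNReal.ofReal_pow (abs_nonneg _), ← ENNReal.ofReal_one,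
    ← ENNReal.ofReal_add zero_le_one (by positivity)]
  exact ENNReal.ofReal_le_ofReal (by nlinarith [sq_nonneg (|x| - 1), sq_nonneg |x|])

theorem regM : S_RegM := by
  intro Ω χ lam u hχ h
  have hne := cne h.area
  obtain ⟨M, hM⟩ := chi_bd hχ
  obtain ⟨C, hC⟩ := h.mass
  have hΩm := h.isOpen.measurableSet
  have hcu : ∀ n, ContinuousOn (u n) Ω := fun n => (h.smooth n).continuousOn
  have hloc : ∀ n, ∀ z₀ ∈ Ω, ∀ v, localWave Ω χ (lam n) (u n) z₀ v =
      cutWave Ω χ (lam n) (u n) z₀ v := by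
    intro n z₀ hz v
    obtain ⟨B, hB⟩ := h.bounded n
    exact loc_apply h.isOpen hne (cutf hχ) (h.pos n) (hcu n) hB hz v
  have hS : ∀ n, ∫⁻ z, sqf Ω (u n) z ≤ ENNReal.ofReal C := by
    intro n
    obtain ⟨B, hB⟩ := h.bounded n
    exact lint_sqf h.isOpen h.area (hcu n) hB (hC n)
  have hD : ∀ n, ∀ v : ℂ, ∫⁻ z₀, ENNReal.ofReal M ^ 2 *
      sqf Ω (u n) (z₀ + ((1 / √(lam n) : ℝ) : ℂ) * v) ≤
        ENNReal.ofReal M ^ 2 * ENNReal.ofReal C := by
    intro n v
    have hm := sqf_meas h.isOpen (hcu n)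
    have hm1 : Measurable fun z₀ : ℂ => sqf Ω (u n) (z₀ + ((1 / √(lam n) : ℝ) : ℂ) * v) :=
      hm.comp (measurable_id.add_const _)
    rw [lintegral_const_mul _ hm1, lintegral_add_right_eq_self (sqf Ω (u n))]
    exact mul_le_mul_right (hS n) _
  constructor
  · intro ρ
    refine ⟨volume Ω * volume (Metric.closedBall (0 : ℂ) ρ) +
      ENNReal.ofReal M ^ 2 * ENNReal.ofReal C * volume (Metric.closedBall (0 : ℂ) ρ), ?_, ?_⟩
    · refine ENNReal.add_ne_top.2 ⟨ENNReal.mul_ne_top h.area measure_closedBall_lt_top.ne,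
        ENNReal.mul_ne_top (ENNReal.mul_ne_top ?_ ENNReal.ofReal_ne_top)
          measure_closedBall_lt_top.ne⟩
      exact ENNReal.pow_ne_top ENNReal.ofReal_ne_top
    · intro n
      have hm := sqf_meas h.isOpen (hcu n)
      set c : ℂ := ((1 / √(lam n) : ℝ) : ℂ) with hc
      have hm2 : Measurable fun p : ℂ × ℂ => ENNReal.ofReal M ^ 2 * sqf Ω (u n) (p.1 + c * p.2) :=
        (hm.comp (by fun_prop)).const_mul _
      calc ∫⁻ z₀ in Ω, (∫⁻ v in Metric.closedBall (0 : ℂ) ρ, ‖localWave Ω χ (lam n) (u n) z₀ v‖ₑ)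
          ≤ ∫⁻ z₀ in Ω, (∫⁻ v in Metric.closedBall (0 : ℂ) ρ,
              (1 + ENNReal.ofReal M ^ 2 * sqf Ω (u n) (z₀ + c * v))) := by
            refine setLIntegral_mono' hΩm fun z₀ hz => ?_
            refine lintegral_mono fun v => ?_
            rw [hloc n z₀ hz v]
            exact (enorm_le_one_add _).trans
              (add_le_add_right (cut_le h.isOpen hne hχ (h.pos n) hM hz v) _)
        _ = ∫⁻ z₀ in Ω, (volume (Metric.closedBall (0 : ℂ) ρ) +
              ∫⁻ v in Metric.closedBall (0 : ℂ) ρ,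
                ENNReal.ofReal M ^ 2 * sqf Ω (u n) (z₀ + c * v)) := by
            refine lintegral_congr fun z₀ => ?_
            rw [lintegral_add_left measurable_const, setLIntegral_one]
        _ = volume Ω * volume (Metric.closedBall (0 : ℂ) ρ) +
              ∫⁻ z₀ in Ω, ∫⁻ v in Metric.closedBall (0 : ℂ) ρ,
                ENNReal.ofReal M ^ 2 * sqf Ω (u n) (z₀ + c * v) := by
            rw [lintegral_add_left measurable_const, setLIntegral_const, mul_comm]
        _ ≤ volume Ω * volume (Metric.closedBall (0 : ℂ) ρ) +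
              ∫⁻ z₀, ∫⁻ v in Metric.closedBall (0 : ℂ) ρ,
                ENNReal.ofReal M ^ 2 * sqf Ω (u n) (z₀ + c * v) :=
            add_le_add_right (setLIntegral_le_lintegral _ _) _
        _ = volume Ω * volume (Metric.closedBall (0 : ℂ) ρ) +
              ∫⁻ v in Metric.closedBall (0 : ℂ) ρ, ∫⁻ z₀,
                ENNReal.ofReal M ^ 2 * sqf Ω (u n) (z₀ + c * v) := by
            rw [lintegral_lintegral_swap hm2.aemeasurable]
        _ ≤ volume Ω * volume (Metric.closedBall (0 : ℂ) ρ) +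
              ∫⁻ v in Metric.closedBall (0 : ℂ) ρ,
                ENNReal.ofReal M ^ 2 * ENNReal.ofReal C :=
            add_le_add_right (lintegral_mono fun v => hD n v) _
        _ = _ := by rw [setLIntegral_const]
  · refine ⟨ENNReal.ofReal M ^ 2 * ENNReal.ofReal C,
      ENNReal.mul_ne_top (ENNReal.pow_ne_top ENNReal.ofReal_ne_top) ENNReal.ofReal_ne_top, ?_⟩
    intro n
    calc ∫⁻ z₀ in Ω, ‖localWave Ω χ (lam n) (u n) z₀ 0‖ₑ ^ 2
        ≤ ∫⁻ z₀ in Ω, ENNReal.ofReal M ^ 2 *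
            sqf Ω (u n) (z₀ + ((1 / √(lam n) : ℝ) : ℂ) * 0) := by
          refine setLIntegral_mono' hΩm fun z₀ hz => ?_
          rw [hloc n z₀ hz 0]
          exact cut_le h.isOpen hne hχ (h.pos n) hM hz 0
      _ ≤ ∫⁻ z₀, ENNReal.ofReal M ^ 2 *
            sqf Ω (u n) (z₀ + ((1 / √(lam n) : ℝ) : ℂ) * 0) := setLIntegral_le_lintegral _ _
      _ ≤ _ := hD n 0

end Pool.Agent.H734.BE
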